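import Mathlib
import Pool.Agent.Helper15.T6.All
import Pool.Agent.Helper15.T8.FinAll

set_option autoImplicit false

/-!
MP_2f9829_co: for all `d, g ≥ 3`, almost all `d`-regular graphs of girth at least `g` satisfy the list
edge-colouring conjecture (`n → ∞`, `n d` even).
-/

namespace Pool.Agent.Results.MP_2f9829_co.AlmostAllRegular

/-- For `d, g ≥ 3` and `ε > 0` and all large `n` with `n d` even: there are `d`-regular graphs on `n`
vertices all of whose cycles have length at least `g`, and all but a proportion `ε` of them have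
chromatic index and list chromatic index `d` (`n` even) or `d + 1` (`n` odd). -/
theorem result : ∀ d g : ℕ, 3 ≤ d → 3 ≤ g → ∀ ε : ℝ, 0 < ε → ∃ n₀ : ℕ, ∀ n : ℕ, n₀ ≤ n →
    Even (n * d) →
    0 < Set.ncard {G : SimpleGraph (Fin n) | (∀ v, Set.ncard (G.neighborSet v) = d) ∧
      ∀ (u : Fin n) (p : G.Walk u u), p.IsCycle → g ≤ p.length} ∧
    (1 - ε) * (Set.ncard {G : SimpleGraph (Fin n) | (∀ v, Set.ncard (G.neighborSet v) = d) ∧
      ∀ (u : Fin n) (p : G.Walk u u), p.IsCycle → g ≤ p.length} : ℝ) ≤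
    (Set.ncard {G : SimpleGraph (Fin n) | ((∀ v, Set.ncard (G.neighborSet v) = d) ∧
      ∀ (u : Fin n) (p : G.Walk u u), p.IsCycle → g ≤ p.length) ∧
      ∀ k : ℕ, (G.lineGraph.Colorable k ↔ (if Even n then d else d + 1) ≤ k) ∧
        ((∀ L : G.edgeSet → Finset ℕ, (∀ e, k ≤ (L e).card) →
          ∃ f : G.edgeSet → ℕ, (∀ e, f e ∈ L e) ∧ ∀ e e', G.lineGraph.Adj e e' → f e ≠ f e') ↔
            (if Even n then d else d + 1) ≤ k)} : ℝ) :=
  Pool.Agent.Helper15.T8.final_reg Pool.Agent.Helper15.T6.All.all_MAIN6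
    Pool.Agent.Helper15.T6.All.all_POSG Pool.Agent.Helper15.T6.All.all_FIBG
    Pool.Agent.Helper15.T6.All.all_GIR1 Pool.Agent.Helper15.T6.All.all_GIR2
    Pool.Agent.Helper15.T6.All.all_WRAP

end Pool.Agent.Results.MP_2f9829_co.AlmostAllRegular
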