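import Mathlib
import Pool.Agent.Helper15.LP.Main
import Pool.Agent.Helper46.NB.All

set_option autoImplicit false

namespace Pool.Agent.Results.MP_2f9829_co.GeneralBound

/-- The list chromatic index of every graph `G` on `n ≥ 2` vertices with maximum degree `Δ` is at most
`Δ + min (C (log n)^5) (10^6 √Δ (log Δ)^2)`, with an absolute constant `C`. -/
theorem result :
    ∃ C : ℝ, ∀ (V : Type) [Fintype V] [DecidableEq V] (G : SimpleGraph V) [DecidableRel G.Adj],
      2 ≤ Fintype.card V →
      ∀ L : G.edgeSet → Finset ℕ,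
        (∀ e, (G.maxDegree : ℝ) + min (C * Real.log (Fintype.card V) ^ 5)
          (10 ^ 6 * Real.sqrt G.maxDegree * Real.log G.maxDegree ^ 2) ≤ ((L e).card : ℝ)) →
        ∃ f : G.edgeSet → ℕ, (∀ e, f e ∈ L e) ∧ ∀ e e', G.lineGraph.Adj e e' → f e ≠ f e' := by
  obtain ⟨C, hC⟩ := Pool.Agent.Helper15.LP.lp_BoundP
  refine ⟨C, ?_⟩
  intro V _ _ G _ hn L hL
  rcases le_total (C * Real.log (Fintype.card V) ^ 5)
      (10 ^ 6 * Real.sqrt G.maxDegree * Real.log G.maxDegree ^ 2) with h | h
  · apply hC V G hn L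
    intro e
    have h1 := hL e
    rw [min_eq_left h] at h1
    exact h1
  · apply Pool.Agent.Helper46.NB.all_BNDG V G L
    intro e
    have h1 := hL e
    rw [min_eq_right h] at h1
    exact h1

end Pool.Agent.Results.MP_2f9829_co.GeneralBound
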