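import Mathlib
import Pool.Agent.Helper15.RG.Main2
import Pool.Agent.Helper46.NB.All

set_option autoImplicit false

/-!
MP_2f9829_co: the list edge-colouring conjecture holds for almost all graphs of the model `G(n, p)`.
-/

namespace Pool.Agent.Results.MP_2f9829_co.RandomGraphs

/-- For all `p = p(n)` with `n (1 - p) ≥ (log n)^12` the random graph `G(n, p)` has, with
probability tending to `1` (uniformly in `p`), chromatic index and list chromatic index equal to its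
maximum degree. -/
theorem result : ∀ ε : ℝ, 0 < ε → ∃ n₀ : ℕ, ∀ n : ℕ, n₀ ≤ n →
    ∀ p : ℝ, 0 ≤ p → p ≤ 1 → Real.log n ^ 12 ≤ n * (1 - p) →
    1 - ε ≤ ∑ G : SimpleGraph (Fin n), Set.indicator
      {G : SimpleGraph (Fin n) | ∀ k : ℕ,
        (G.lineGraph.Colorable k ↔ ∀ L : G.edgeSet → Finset ℕ, (∀ e, k ≤ (L e).card) →
          ∃ f : G.edgeSet → ℕ, (∀ e, f e ∈ L e) ∧ ∀ e e', G.lineGraph.Adj e e' → f e ≠ f e') ∧
        (G.lineGraph.Colorable k ↔ ∀ v, Set.ncard (G.neighborSet v) ≤ k)}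
      (fun G => p ^ (Set.ncard G.edgeSet) * (1 - p) ^ (n.choose 2 - Set.ncard G.edgeSet)) G := by
  intro ε hε
  obtain ⟨n₀, h0⟩ := Pool.Agent.Helper15.RG.rg_all Pool.Agent.Helper46.NB.all_GAPL ε hε
  refine ⟨n₀, fun n hn p hp0 hp1 hnp => ?_⟩
  have h1 := h0 n hn p hp0 hp1 hnp
  rw [← Pool.Agent.Helper15.RG.exG_ind]
  exact h1

end Pool.Agent.Results.MP_2f9829_co.RandomGraphs
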